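import Pool.Agent.H207.BT.Stm5
import Pool.Graph.R_seed8.H790R3.RB.TWR

/-!
# Project BT: Lattès maps (task `S_LATL`)
-/

set_option autoImplicit false

open Topology Filter Metric Set MeasureTheory Polynomial

namespace Pool.Agent.H807.BT207.LATL

open Pool.Agent.H790R3.RB Pool.Agent.H211.HY Pool.Agent.H207.BT

theorem wr_smul {d : ℕ} (x : CV d) (a : ℂ) (p : ℂ × ℂ) :
    wr x (a • p) = (a ^ (d - 1)) ^ 2 * wr x p := by
  rw [WR.wr_eq, WR.wr_eq, WR.SU_smul, WR.SV_smul, WR.SU_smul, WR.SV_smul]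
  ring

/-- a critical point is not periodic -/
theorem notper {d : ℕ} (x : CV d) (hn : ND x) (hce : CE x) {p : ℂ × ℂ} (hp : p ≠ 0)
    (hw : wr x p = 0) (n : ℕ) (h0 : 0 < n) : cr ((hF x)^[n] p) p ≠ 0 := by
  intro h
  obtain ⟨C, hC, μ, hμ, hb⟩ := hce p hp hw
  obtain ⟨a, -, ha⟩ := (cr_eq_zero_iff (hn.iter_ne n hp) hp).mp h
  have hw' : wr x ((hF x)^[n] p) = 0 := by
    rw [ha, wr_smul, hw, mul_zero]
  have h1 : sdn x n (hF x p) = 0 := by
    unfold sdn
    apply Finset.prod_eq_zero (i := n - 1) (Finset.mem_range.mpr (by omega))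
    have h2 : (hF x)^[n - 1] (hF x p) = (hF x)^[n] p := by
      rw [← Function.iterate_succ_apply]
      congr 2
      omega
    rw [h2]
    unfold sd
    rw [hw']
    simp
  have h3 := hb n
  rw [h1] at h3
  have : 0 < C * μ ^ n := by positivity
  linarith

/-- the dehomogenised quartic -/
noncomputable def QP (r : Fin 5 → ℂ) : ℂ[X] := ∑ j : Fin 5, C (r j) * X ^ (j : ℕ)

theorem QP_ne {r : Fin 5 → ℂ} (hr : r ≠ 0) : QP r ≠ 0 := by
  intro h
  apply hr
  funext i
  have h1 : (QP r).coeff (i : ℕ) = r i := by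
    unfold QP
    rw [finsetSum_coeff]
    rw [Finset.sum_eq_single i]
    · simp
    · intro j _ hj
      rw [coeff_C_mul_X_pow, if_neg]
      intro hh
      exact hj (Fin.ext hh.symm)
    · intro hh
      exact absurd (Finset.mem_univ i) hh
  rw [← h1, h]
  simp

theorem quar_eq (r : Fin 5 → ℂ) (q : ℂ × ℂ) (hq : q.2 ≠ 0) :
    quar r q = q.2 ^ 4 * (QP r).eval (q.1 / q.2) := by
  unfold quar QP
  rw [eval_finsetSum, Finset.mul_sum]
  refine Finset.sum_congr rfl fun j _ => ?_
  have hj : (j : ℕ) + (4 - (j : ℕ)) = 4 := by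
    have := j.2
    omega
  rw [eval_mul, eval_C, eval_pow, eval_X]
  have h4 : q.2 ^ 4 = q.2 ^ (j : ℕ) * q.2 ^ (4 - (j : ℕ)) := by
    rw [← pow_add, hj]
  rw [h4, div_pow]
  field_simp

open Classical in
/-- the direction of a vector -/
noncomputable def dir (q : ℂ × ℂ) : Option ℂ := if q.2 = 0 then none else some (q.1 / q.2)

theorem dir_cr {p q : ℂ × ℂ} (h : dir p = dir q) : cr p q = 0 := by
  unfold dir at h
  unfold cr
  by_cases h1 : p.2 = 0
  · by_cases h2 : q.2 = 0
    · rw [h1, h2]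
      ring
    · rw [if_pos h1, if_neg h2] at h
      exact absurd h (by simp)
  · by_cases h2 : q.2 = 0
    · rw [if_neg h1, if_pos h2] at h
      exact absurd h (by simp)
    · rw [if_neg h1, if_neg h2, Option.some_inj] at h
      field_simp at h
      linear_combination h

theorem dir_fin {r : Fin 5 → ℂ} (hr : r ≠ 0) :
    Set.Finite {t : Option ℂ | ∃ q : ℂ × ℂ, quar r q = 0 ∧ dir q = t} := by
  have h1 : Set.Finite (insert none (some '' {z : ℂ | z ∈ (QP r).roots.toFinset}) :
      Set (Option ℂ)) := by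
    apply Set.Finite.insert
    apply Set.Finite.image
    exact Finset.finite_toSet (QP r).roots.toFinset
  refine h1.subset ?_
  rintro t ⟨q, hq, rfl⟩
  by_cases h2 : q.2 = 0
  · left
    unfold dir
    rw [if_pos h2]
  · right
    refine ⟨q.1 / q.2, ?_, ?_⟩
    · show q.1 / q.2 ∈ (QP r).roots.toFinset
      rw [Multiset.mem_toFinset, mem_roots (QP_ne hr), IsRoot.def]
      rw [quar_eq r q h2] at hq
      exact (mul_eq_zero.mp hq).resolve_left (pow_ne_zero 4 h2)
    · unfold dir
      rw [if_neg h2]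

theorem t_LATL : S_LATL := by
  intro d x hd hn hce hlat p hp hw
  refine ⟨?_, fun n h0 => notper x hn hce hp hw n h0⟩
  obtain ⟨r, hr, hq⟩ := hlat
  have hd3 : ((d : ℂ) ^ 3) ≠ 0 := by
    apply pow_ne_zero
    have : d ≠ 0 := by omega
    exact_mod_cast this
  have hz : ∀ j : ℕ, quar r ((hF x)^[j + 1] p) = 0 := by
    intro j
    induction j with
    | zero =>
      have h1 := hq p
      rw [hw] at h1
      have h2 : (d : ℂ) ^ 3 * quar r (hF x p) = 0 := by
        rw [← h1]
        ring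
      simpa using (mul_eq_zero.mp h2).resolve_left hd3
    | succ j ih =>
      have h1 := hq ((hF x)^[j + 1] p)
      rw [ih, zero_mul] at h1
      rw [Function.iterate_succ_apply']
      exact (mul_eq_zero.mp h1.symm).resolve_left hd3
  -- pigeonhole
  have hf : ∀ j : ℕ, dir ((hF x)^[j + 1] p) ∈
      {t : Option ℂ | ∃ q : ℂ × ℂ, quar r q = 0 ∧ dir q = t} := fun j => ⟨_, hz j, rfl⟩
  obtain ⟨i, -, j, -, hij, he⟩ := Set.infinite_univ.exists_ne_map_eq_of_mapsTo
    (f := fun j : ℕ => dir ((hF x)^[j + 1] p)) (fun j _ => hf j) (dir_fin hr)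
  rcases lt_or_gt_of_ne hij with h | h
  · refine ⟨i + 1, j - i, by omega, ?_⟩
    have e : i + 1 + (j - i) = j + 1 := by omega
    rw [e]
    exact dir_cr he.symm
  · refine ⟨j + 1, i - j, by omega, ?_⟩
    have e : j + 1 + (i - j) = i + 1 := by omega
    rw [e]
    exact dir_cr he

end Pool.Agent.H807.BT207.LATL
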